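import Pool.Agent.H839R3.Nas.Stmts

/-!
# Definability calculus for `LSet`, and Lean-finite sets are finite in models of ZF
-/

set_option autoImplicit false

namespace Pool.Agent.H214R3.NasT

open FirstOrder FirstOrder.Language
open Pool.Agent.Helper672.Plain (LSet Sym Mem IsPair IsOrdPair Zermelo)
open Pool.Agent.H635Amen (ZF)
open Pool.Agent.H310Cards

universe u

variable {M : Type u} [LSet.Structure M]

/-! ### Definability -/

/-- Definability with parameters. -/
def D {ι : Type} (p : (ι → M) → Prop) : Prop := (Set.univ : Set M).Definable LSet {v | p v}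

/-- Terms: variables and parameters. -/
def T {ι : Type} (t : (ι → M) → M) : Prop :=
  ∃ τ : LSet[[(Set.univ : Set M)]].Term ι, ∀ v, τ.realize v = t v

section

variable {ι : Type}

theorem T.var (i : ι) : T (fun v : ι → M => v i) := ⟨Term.var i, fun _ => rfl⟩

theorem T.const (a : M) : T (fun _ : ι → M => a) :=
  ⟨(LSet.con (⟨a, Set.mem_univ a⟩ : (Set.univ : Set M))).term, fun v => by
    simp [Term.realize_constants]⟩

theorem T.lift {s : (ι → M) → M} (hs : T s) :
    T (fun w : ι ⊕ Unit → M => s (fun i => w (Sum.inl i))) := by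
  obtain ⟨σ, hσ⟩ := hs
  refine ⟨σ.relabel Sum.inl, fun w => ?_⟩
  rw [Term.realize_relabel]
  exact hσ _

theorem D.not {p : (ι → M) → Prop} (hp : D p) : D (fun v => ¬ p v) := by
  have h := Set.Definable.compl hp
  exact h

theorem D.and {p q : (ι → M) → Prop} (hp : D p) (hq : D q) : D (fun v => p v ∧ q v) := by
  have h := Set.Definable.inter hp hq
  exact h

theorem D.or {p q : (ι → M) → Prop} (hp : D p) (hq : D q) : D (fun v => p v ∨ q v) := by
  have h := Set.Definable.union hp hq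
  exact h

theorem D.imp {p q : (ι → M) → Prop} (hp : D p) (hq : D q) : D (fun v => p v → q v) := by
  have h := (hp.not).or hq
  refine Eq.mp (congrArg D ?_) h
  funext v
  exact propext imp_iff_not_or.symm

theorem D.iff {p q : (ι → M) → Prop} (hp : D p) (hq : D q) : D (fun v => (p v ↔ q v)) := by
  have h := (hp.imp hq).and (hq.imp hp)
  refine Eq.mp (congrArg D ?_) h
  funext v
  exact propext iff_iff_implies_and_implies.symm

theorem D.ex {p : (ι → M) → M → Prop}
    (h : D (fun w : ι ⊕ Unit → M => p (fun i => w (Sum.inl i)) (w (Sum.inr ())))) :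
    D (fun v => ∃ x, p v x) := by
  have h1 := Set.Definable.exists_of_finite (β := Unit) h
  refine Eq.mp (congrArg D ?_) h1
  funext v
  refine propext ⟨fun ⟨a, ha⟩ => ⟨a (), ha⟩, fun ⟨x, hx⟩ => ⟨fun _ => x, hx⟩⟩

theorem D.all {p : (ι → M) → M → Prop}
    (h : D (fun w : ι ⊕ Unit → M => p (fun i => w (Sum.inl i)) (w (Sum.inr ())))) :
    D (fun v => ∀ x, p v x) := by
  have h1 := Set.Definable.forall_of_finite (β := Unit) h
  refine Eq.mp (congrArg D ?_) h1
  funext v
  refine propext ⟨fun h2 x => h2 fun _ => x, fun h2 a => h2 (a ())⟩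

theorem D.mem {s t : (ι → M) → M} (hs : T s) (ht : T t) : D (fun v => Mem (s v) (t v)) := by
  obtain ⟨σ, hσ⟩ := hs
  obtain ⟨τ, hτ⟩ := ht
  refine ⟨Relations.formula₂ (((LSet.lhomWithConstants (Set.univ : Set M)).onRelation
    (Sym.mem : LSet.Relations 2))) σ τ, ?_⟩
  ext v
  simp only [Set.mem_ofPred_eq, Formula.realize_rel₂, hσ, hτ]
  rfl

theorem D.eq {s t : (ι → M) → M} (hs : T s) (ht : T t) : D (fun v => s v = t v) := by
  obtain ⟨σ, hσ⟩ := hs
  obtain ⟨τ, hτ⟩ := ht
  refine ⟨σ.equal τ, ?_⟩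
  ext v
  simp only [Set.mem_ofPred_eq, Formula.realize_equal, hσ, hτ]

theorem D.isPair {p x y : (ι → M) → M} (hp : T p) (hx : T x) (hy : T y) :
    D (fun v => IsPair (p v) (x v) (y v)) := by
  unfold IsPair
  refine D.all (p := fun v z => (Mem z (p v) ↔ z = x v ∨ z = y v)) ?_
  exact (D.mem (T.var _) hp.lift).iff ((D.eq (T.var _) hx.lift).or (D.eq (T.var _) hy.lift))

theorem D.isOrdPair {p x y : (ι → M) → M} (hp : T p) (hx : T x) (hy : T y) :
    D (fun v => IsOrdPair (p v) (x v) (y v)) := by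
  unfold IsOrdPair
  refine D.ex (p := fun v s => ∃ d, IsPair s (x v) (x v) ∧ IsPair d (x v) (y v) ∧
    IsPair (p v) s d) ?_
  refine D.ex (p := fun (w : ι ⊕ Unit → M) d => IsPair (w (Sum.inr ())) (x fun i => w (Sum.inl i))
    (x fun i => w (Sum.inl i)) ∧ IsPair d (x fun i => w (Sum.inl i)) (y fun i => w (Sum.inl i)) ∧
    IsPair (p fun i => w (Sum.inl i)) (w (Sum.inr ())) d) ?_
  exact (D.isPair (T.var _) hx.lift.lift hx.lift.lift).and
    ((D.isPair (T.var _) hx.lift.lift hy.lift.lift).and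
      (D.isPair hp.lift.lift (T.var _) (T.var _)))

theorem D.app {f x y : (ι → M) → M} (hf : T f) (hx : T x) (hy : T y) :
    D (fun v => App (f v) (x v) (y v)) := by
  unfold App
  refine D.ex (p := fun v q => IsOrdPair q (x v) (y v) ∧ Mem q (f v)) ?_
  exact (D.isOrdPair (T.var _) hx.lift hy.lift).and (D.mem (T.var _) hf.lift)

theorem D.isInductive {i : (ι → M) → M} (hi : T i) : D (fun v => IsInductive (i v)) := by
  unfold IsInductive
  refine D.and ?_ ?_
  · refine D.ex (p := fun v e => Mem e (i v) ∧ ∀ z, ¬ Mem z e) ?_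
    refine (D.mem (T.var _) hi.lift).and ?_
    refine D.all (p := fun (w : ι ⊕ Unit → M) z => ¬ Mem z (w (Sum.inr ()))) ?_
    exact (D.mem (T.var _) (T.var _)).not
  · refine D.all (p := fun v n => Mem n (i v) → ∃ s, Mem s (i v) ∧
      ∀ z, Mem z s ↔ Mem z n ∨ z = n) ?_
    refine (D.mem (T.var _) hi.lift).imp ?_
    refine D.ex (p := fun (w : ι ⊕ Unit → M) s => Mem s (i fun k => w (Sum.inl k)) ∧
      ∀ z, Mem z s ↔ Mem z (w (Sum.inr ())) ∨ z = w (Sum.inr ())) ?_
    refine (D.mem (T.var _) hi.lift.lift).and ?_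
    refine D.all (p := fun (w : (ι ⊕ Unit) ⊕ Unit → M) z => (Mem z (w (Sum.inr ())) ↔
      Mem z (w (Sum.inl (Sum.inr ()))) ∨ z = w (Sum.inl (Sum.inr ())))) ?_
    exact (D.mem (T.var _) (T.var _)).iff ((D.mem (T.var _) (T.var _)).or
      (D.eq (T.var _) (T.var _)))

theorem D.isNat {n : (ι → M) → M} (hn : T n) : D (fun v => IsNat (n v)) := by
  unfold IsNat
  refine D.all (p := fun v i => IsInductive i → Mem (n v) i) ?_
  exact (D.isInductive (T.var _)).imp (D.mem hn.lift (T.var _))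

theorem D.isFun {f a b : (ι → M) → M} (hf : T f) (ha : T a) (hb : T b) :
    D (fun v => IsFun (f v) (a v) (b v)) := by
  unfold IsFun
  refine D.and ?_ ?_
  · refine D.all (p := fun v q => Mem q (f v) → ∃ x y, Mem x (a v) ∧ Mem y (b v) ∧
      IsOrdPair q x y) ?_
    refine (D.mem (T.var _) hf.lift).imp ?_
    refine D.ex (p := fun (w : ι ⊕ Unit → M) x => ∃ y, Mem x (a fun k => w (Sum.inl k)) ∧
      Mem y (b fun k => w (Sum.inl k)) ∧ IsOrdPair (w (Sum.inr ())) x y) ?_
    refine D.ex (p := fun (w : (ι ⊕ Unit) ⊕ Unit → M) y =>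
      Mem (w (Sum.inr ())) (a fun k => w (Sum.inl (Sum.inl k))) ∧
      Mem y (b fun k => w (Sum.inl (Sum.inl k))) ∧
      IsOrdPair (w (Sum.inl (Sum.inr ()))) (w (Sum.inr ())) y) ?_
    exact (D.mem (T.var _) ha.lift.lift.lift).and ((D.mem (T.var _) hb.lift.lift.lift).and
      (D.isOrdPair (T.var _) (T.var _) (T.var _)))
  · refine D.all (p := fun v x => Mem x (a v) → ∃! y, App (f v) x y) ?_
    refine (D.mem (T.var _) ha.lift).imp ?_
    refine D.ex (p := fun (w : ι ⊕ Unit → M) y => (fun y => App (f fun k => w (Sum.inl k))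
      (w (Sum.inr ())) y) y ∧ ∀ y', (fun y => App (f fun k => w (Sum.inl k))
      (w (Sum.inr ())) y) y' → y' = y) ?_
    refine (D.app hf.lift.lift (T.var _) (T.var _)).and ?_
    refine D.all (p := fun (w : (ι ⊕ Unit) ⊕ Unit → M) y' =>
      App (f fun k => w (Sum.inl (Sum.inl k))) (w (Sum.inl (Sum.inr ()))) y' →
        y' = w (Sum.inr ())) ?_
    exact (D.app hf.lift.lift.lift (T.var _) (T.var _)).imp (D.eq (T.var _) (T.var _))

theorem D.isInj {f a b : (ι → M) → M} (hf : T f) (ha : T a) (hb : T b) :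
    D (fun v => IsInj (f v) (a v) (b v)) := by
  unfold IsInj
  refine (D.isFun hf ha hb).and ?_
  refine D.all (p := fun v x => ∀ x' y, App (f v) x y → App (f v) x' y → x = x') ?_
  refine D.all (p := fun (w : ι ⊕ Unit → M) x' => ∀ y,
    App (f fun k => w (Sum.inl k)) (w (Sum.inr ())) y →
    App (f fun k => w (Sum.inl k)) x' y → w (Sum.inr ()) = x') ?_
  refine D.all (p := fun (w : (ι ⊕ Unit) ⊕ Unit → M) y =>
    App (f fun k => w (Sum.inl (Sum.inl k))) (w (Sum.inl (Sum.inr ()))) y →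
    App (f fun k => w (Sum.inl (Sum.inl k))) (w (Sum.inr ())) y →
      w (Sum.inl (Sum.inr ())) = w (Sum.inr ())) ?_
  exact (D.app hf.lift.lift.lift (T.var _) (T.var _)).imp
    ((D.app hf.lift.lift.lift (T.var _) (T.var _)).imp (D.eq (T.var _) (T.var _)))

theorem D.isBij {f a b : (ι → M) → M} (hf : T f) (ha : T a) (hb : T b) :
    D (fun v => IsBij (f v) (a v) (b v)) := by
  unfold IsBij
  refine (D.isInj hf ha hb).and ?_
  refine D.all (p := fun v y => Mem y (b v) → ∃ x, App (f v) x y) ?_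
  refine (D.mem (T.var _) hb.lift).imp ?_
  refine D.ex (p := fun (w : ι ⊕ Unit → M) x =>
    App (f fun k => w (Sum.inl k)) x (w (Sum.inr ()))) ?_
  exact D.app hf.lift.lift (T.var _) (T.var _)

theorem D.isFinite {a : (ι → M) → M} (ha : T a) : D (fun v => IsFinite (a v)) := by
  unfold IsFinite
  refine D.ex (p := fun v n => ∃ f, IsNat n ∧ IsBij f (a v) n) ?_
  refine D.ex (p := fun (w : ι ⊕ Unit → M) f => IsNat (w (Sum.inr ())) ∧
    IsBij f (a fun k => w (Sum.inl k)) (w (Sum.inr ()))) ?_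
  exact (D.isNat (T.var _)).and (D.isBij (T.var _) ha.lift.lift (T.var _))

end

/-! ### Basic set theory -/

/-- Separation. -/
theorem sep (h : Zermelo M) (P : M → Prop) (hP : D (fun v : Fin 1 → M => P (v 0))) (x : M) :
    ∃ y, ∀ z, Mem z y ↔ Mem z x ∧ P z := h.separation {z | P z} hP x

theorem exists_empty (h : Zermelo M) : ∃ e : M, ∀ z, ¬ Mem z e := by
  obtain ⟨i, ⟨e, _, he⟩, _⟩ := h.infinity
  exact ⟨e, he⟩

theorem exists_insert (h : Zermelo M) (x a : M) : ∃ y, ∀ z, Mem z y ↔ Mem z x ∨ z = a := by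
  obtain ⟨s, hs⟩ := h.pairing a a
  obtain ⟨p, hp⟩ := h.pairing x s
  obtain ⟨y, hy⟩ := h.union p
  refine ⟨y, fun z => (hy z).trans ⟨?_, ?_⟩⟩
  · rintro ⟨w, hw, hz⟩
    rcases (hp w).1 hw with rfl | rfl
    · exact Or.inl hz
    · exact Or.inr (by rcases (hs z).1 hz with h | h <;> exact h)
  · rintro (hz | rfl)
    · exact ⟨x, (hp x).2 (Or.inl rfl), hz⟩
    · exact ⟨s, (hp s).2 (Or.inr rfl), (hs z).2 (Or.inl rfl)⟩

/-- every Lean-finite set of elements of the model is a set of the model -/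
theorem exists_of_finite (h : Zermelo M) {s : Set M} (hs : s.Finite) :
    ∃ x : M, ∀ z, Mem z x ↔ z ∈ s := by
  induction s, hs using Set.Finite.induction_on with
  | empty =>
    obtain ⟨e, he⟩ := exists_empty h
    exact ⟨e, fun z => ⟨fun hz => absurd hz (he z), fun hz => absurd hz (Set.notMem_empty z)⟩⟩
  | insert _ _ ih =>
    rename_i a s _ _
    obtain ⟨x, hx⟩ := ih
    obtain ⟨y, hy⟩ := exists_insert h x a
    refine ⟨y, fun z => (hy z).trans ?_⟩
    rw [hx, Set.mem_insert_iff, or_comm]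

theorem isPair_inj {p x y x' y' : M} (h1 : IsPair p x y) (h2 : IsPair p x' y') :
    (x = x' ∧ y = y') ∨ (x = y' ∧ y = x') := by
  have a1 := (h2 x).1 ((h1 x).2 (Or.inl rfl))
  have a2 := (h2 y).1 ((h1 y).2 (Or.inr rfl))
  have a3 := (h1 x').1 ((h2 x').2 (Or.inl rfl))
  have a4 := (h1 y').1 ((h2 y').2 (Or.inr rfl))
  rcases a1 with e1 | e1
  · left
    refine ⟨e1, ?_⟩
    rcases a4 with e4 | e4
    · rcases a2 with e2 | e2
      · rw [e2, e4, e1]
      · exact e2
    · exact e4.symm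
  · right
    refine ⟨e1, ?_⟩
    rcases a3 with e3 | e3
    · rcases a2 with e2 | e2
      · exact e2
      · rw [e2, e3, e1]
    · exact e3.symm

theorem isPair_unique (h : Zermelo M) {p p' x y : M} (h1 : IsPair p x y) (h2 : IsPair p' x y) :
    p = p' := h.ext _ _ fun z => (h1 z).trans (h2 z).symm

theorem isOrdPair_unique (h : Zermelo M) {p p' x y : M} (h1 : IsOrdPair p x y)
    (h2 : IsOrdPair p' x y) : p = p' := by
  obtain ⟨s, d, hs, hd, hp⟩ := h1
  obtain ⟨s', d', hs', hd', hp'⟩ := h2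
  rw [← isPair_unique h hs hs', ← isPair_unique h hd hd'] at hp'
  exact isPair_unique h hp hp'

theorem isOrdPair_inj (_h : Zermelo M) {p x y x' y' : M} (h1 : IsOrdPair p x y)
    (h2 : IsOrdPair p x' y') : x = x' ∧ y = y' := by
  obtain ⟨s, d, hs, hd, hp⟩ := h1
  obtain ⟨s', d', hs', hd', hp'⟩ := h2
  rcases isPair_inj hp hp' with ⟨rfl, rfl⟩ | ⟨rfl, rfl⟩
  · have e1 : x = x' := by
      rcases isPair_inj hs hs' with h | h
      · exact h.1
      · exact h.1
    subst e1
    refine ⟨rfl, ?_⟩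
    rcases isPair_inj hd hd' with h | h
    · exact h.2
    · rw [h.2, h.1]
  · -- s = d', d = s'
    have e1 : x = x' ∧ x = y' := by
      rcases isPair_inj hs hd' with h | h
      · exact ⟨h.1, h.2⟩
      · exact ⟨h.2, h.1⟩
    have e2 : x = x' ∧ y = x' := by
      rcases isPair_inj hd hs' with h | h
      · exact ⟨h.1, h.2⟩
      · exact ⟨h.1, h.2⟩
    exact ⟨e1.1, by rw [e2.2, ← e1.2, e1.1]⟩

theorem exists_ordPair (h : Zermelo M) (x y : M) : ∃ p, IsOrdPair p x y := by
  obtain ⟨s, hs⟩ := h.pairing x x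
  obtain ⟨d, hd⟩ := h.pairing x y
  obtain ⟨p, hp⟩ := h.pairing s d
  exact ⟨p, s, d, hs, hd, hp⟩

theorem app_insert (h : Zermelo M) {f f' q a n : M} (hq : IsOrdPair q a n)
    (hf : ∀ z, Mem z f' ↔ Mem z f ∨ z = q) (x y : M) :
    App f' x y ↔ App f x y ∨ (x = a ∧ y = n) := by
  constructor
  · rintro ⟨p, hp, hm⟩
    rcases (hf p).1 hm with hm | rfl
    · exact Or.inl ⟨p, hp, hm⟩
    · exact Or.inr (isOrdPair_inj h hp hq)
  · rintro (⟨p, hp, hm⟩ | ⟨rfl, rfl⟩)
    · exact ⟨p, hp, (hf p).2 (Or.inl hm)⟩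
    · exact ⟨q, hq, (hf q).2 (Or.inr rfl)⟩

theorem app_mem (h : Zermelo M) {f a b x y : M} (hf : IsFun f a b) (hxy : App f x y) :
    Mem x a ∧ Mem y b := by
  obtain ⟨q, hq, hm⟩ := hxy
  obtain ⟨x', y', hx, hy, hq'⟩ := hf.1 q hm
  obtain ⟨rfl, rfl⟩ := isOrdPair_inj h hq hq'
  exact ⟨hx, hy⟩

/-- Lean-finite sets are finite in the model. -/
theorem isFinite_of_finite (h : ZF M) {s : Set M} (hs : s.Finite) :
    ∀ x : M, (∀ z, Mem z x ↔ z ∈ s) → IsFinite x := by
  have hz : Zermelo M := h.toZermelo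
  induction s, hs using Set.Finite.induction_on with
  | empty =>
    intro x hx
    have hx0 : ∀ z, ¬ Mem z x := fun z hz => (hx z).1 hz
    refine ⟨x, x, ?_, ⟨⟨⟨?_, ?_⟩, ?_⟩, ?_⟩⟩
    · intro i hi
      obtain ⟨⟨e, he, he'⟩, _⟩ := hi
      have : x = e := hz.ext _ _ fun z => ⟨fun h => absurd h (hx0 z), fun h => absurd h (he' z)⟩
      rw [this]; exact he
    · intro q hq; exact absurd hq (hx0 q)
    · intro y hy; exact absurd hy (hx0 y)
    · rintro y y' z ⟨q, _, hq⟩; exact absurd hq (hx0 q)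
    · intro y hy; exact absurd hy (hx0 y)
  | insert hnot _ ih =>
    rename_i a s _
    intro x hx
    obtain ⟨x0, hx0⟩ := sep hz (fun z => ¬ z = a) ((D.eq (T.var _) (T.const a)).not) x
    have hx0' : ∀ z, Mem z x0 ↔ z ∈ s := by
      intro z
      rw [hx0, hx, Set.mem_insert_iff]
      constructor
      · rintro ⟨h1 | h1, h2⟩
        · exact absurd h1 h2
        · exact h1
      · intro h1
        exact ⟨Or.inr h1, fun h2 => hnot (h2 ▸ h1)⟩
    obtain ⟨n, f, hn, ⟨⟨⟨hf1, hf2⟩, hf3⟩, hf4⟩⟩ := ih x0 hx0'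
    have hfun : IsFun f x0 n := ⟨hf1, hf2⟩
    obtain ⟨n', hn'⟩ := exists_insert hz n n
    have hnn : ¬ Mem n n := by
      obtain ⟨t, ht⟩ := hz.pairing n n
      obtain ⟨w, hw, hw'⟩ := h.foundation t ⟨n, (ht n).2 (Or.inl rfl)⟩
      have : w = n := by rcases (ht w).1 hw with h | h <;> exact h
      rw [this] at hw'
      intro hc
      exact hw' n ((ht n).2 (Or.inl rfl)) hc
    obtain ⟨q, hq⟩ := exists_ordPair hz a n
    obtain ⟨f', hf'⟩ := exists_insert hz f q
    have happ := app_insert hz hq hf'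
    have hxm : ∀ z, Mem z x ↔ Mem z x0 ∨ z = a := by
      intro z
      rw [hx, hx0', Set.mem_insert_iff, or_comm]
    have hna : ¬ Mem a x0 := fun hc => hnot ((hx0' a).1 hc)
    refine ⟨n', f', ?_, ⟨⟨⟨?_, ?_⟩, ?_⟩, ?_⟩⟩
    · intro i hi
      obtain ⟨m, hm, hm'⟩ := hi.2 n (hn i hi)
      have : n' = m := hz.ext _ _ fun z => (hn' z).trans (hm' z).symm
      rw [this]; exact hm
    · intro p hp
      rcases (hf' p).1 hp with hp | rfl
      · obtain ⟨u, v, hu, hv, hp⟩ := hf1 p hp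
        exact ⟨u, v, (hxm u).2 (Or.inl hu), (hn' v).2 (Or.inl hv), hp⟩
      · exact ⟨a, n, (hxm a).2 (Or.inr rfl), (hn' n).2 (Or.inr rfl), hq⟩
    · intro z hzx
      rcases (hxm z).1 hzx with hz0 | rfl
      · obtain ⟨y, hy, hy'⟩ := hf2 z hz0
        refine ⟨y, (happ z y).2 (Or.inl hy), fun y' h' => ?_⟩
        rcases (happ z y').1 h' with h' | ⟨rfl, rfl⟩
        · exact hy' y' h'
        · exact absurd hz0 hna
      · refine ⟨n, (happ z n).2 (Or.inr ⟨rfl, rfl⟩), fun y' h' => ?_⟩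
        rcases (happ z y').1 h' with h' | ⟨_, h'⟩
        · exact absurd (app_mem hz hfun h').1 hna
        · exact h'
    · intro u u' y h1 h2
      rcases (happ u y).1 h1 with h1 | ⟨rfl, rfl⟩ <;> rcases (happ u' y).1 h2 with h2 | ⟨h2, h2'⟩
      · exact hf3 u u' y h1 h2
      · subst h2'
        exact absurd (app_mem hz hfun h1).2 hnn
      · exact absurd (app_mem hz hfun h2).2 hnn
      · exact h2.symm
    · intro y hy
      rcases (hn' y).1 hy with hy | rfl
      · obtain ⟨z, hz⟩ := hf4 y hy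
        exact ⟨z, (happ z y).2 (Or.inl hz)⟩
      · exact ⟨a, (happ a _).2 (Or.inr ⟨rfl, rfl⟩)⟩

/-- finite in the model = Lean-finite, if one direction is given -/
theorem isFinite_iff (h : ZF M) (hstd : ∀ x : M, IsFinite x → {y | Mem y x}.Finite) (x : M) :
    IsFinite x ↔ {y | Mem y x}.Finite :=
  ⟨hstd x, fun hf => isFinite_of_finite h hf x fun _ => Iff.rfl⟩

end Pool.Agent.H214R3.NasT
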