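import Pool.Agent.H214R3.NasT.Base

/-!
# Task Split
-/

set_option autoImplicit false

namespace Pool.Agent.H214R3.NasT

open FirstOrder FirstOrder.Language
open Pool.Agent.Helper672.Plain (LSet Sym Mem IsPair IsOrdPair Zermelo)
open Pool.Agent.H635Amen (ZF)
open Pool.Agent.H310Cards
open Pool.Agent.H839R3.Nas

universe u

/-- `c` covers `d` -/
def Cov {M : Type u} (L : Set M) (le : M → M → Prop) (d c : M) : Prop :=
  le d c ∧ ¬ le c d ∧ ∀ e, e ∈ L → ¬ (¬ le e d ∧ ¬ le c e)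

section comb

variable {M : Type u} {L : Set M} {le : M → M → Prop}
  (htr : ∀ a b c, a ∈ L → b ∈ L → c ∈ L → le a b → le b c → le a c)
  (htot : ∀ a b, a ∈ L → b ∈ L → le a b ∨ le b a)
  (hfin : ∀ b ∈ L, {c | c ∈ L ∧ le c b}.Finite)

include htr htot hfin

theorem ncard_lt {d c : M} (hd : d ∈ L) (hc : c ∈ L) (h : ¬ le c d) :
    {x | x ∈ L ∧ le x d}.ncard < {x | x ∈ L ∧ le x c}.ncard := by
  have hdc : le d c := (htot d c hd hc).resolve_right h
  refine Set.ncard_lt_ncard ⟨?_, ?_⟩ (hfin c hc)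
  · rintro x ⟨hx, hxd⟩
    exact ⟨hx, htr x d c hx hd hc hxd hdc⟩
  · intro hsub
    have hcc : le c c := (htot c c hc hc).elim id id
    exact h (hsub (⟨hc, hcc⟩ : c ∈ {x | x ∈ L ∧ le x c})).2

theorem exists_cov (hinf : L.Infinite) (F : Set M) (hF : F.Finite) (hFL : F ⊆ L) :
    ∃ b c, b ∈ L ∧ c ∈ L ∧ Cov L le b c ∧ ∀ e ∈ F, ¬ le b e := by
  have hU : (⋃ e ∈ F, {c | c ∈ L ∧ le c e}).Finite := hF.biUnion fun e he => hfin e (hFL he)
  obtain ⟨b, hb, hbU⟩ := hinf.exists_notMem_finite hU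
  have hbF : ∀ e ∈ F, ¬ le b e := by
    intro e he hle
    exact hbU (Set.mem_biUnion he ⟨hb, hle⟩)
  have hS : {c | c ∈ L ∧ ¬ le c b}.Nonempty := by
    obtain ⟨c, hc, hc'⟩ := hinf.exists_notMem_finite (hfin b hb)
    exact ⟨c, hc, fun h => hc' ⟨hc, h⟩⟩
  classical
  obtain ⟨c, ⟨hc, hcb⟩, hmin⟩ := (measure fun x : M => {d | d ∈ L ∧ le d x}.ncard).wf.has_min
    _ hS
  refine ⟨b, c, hb, hc, ⟨(htot b c hb hc).resolve_right hcb, hcb, ?_⟩, hbF⟩
  rintro e he ⟨h1, h2⟩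
  exact hmin e ⟨he, h1⟩ (ncard_lt htr htot hfin he hc h2)

theorem core (hinf : L.Infinite) (E : M → Prop)
    (hE : ∀ c ∈ L, (E c ↔ ∀ d, d ∈ L → Cov L le d c → ¬ E d)) :
    {c | c ∈ L ∧ E c}.Infinite ∧ {c | c ∈ L ∧ ¬ E c}.Infinite := by
  constructor
  · intro hF
    obtain ⟨b, c, hb, hc, hcov, hbF⟩ := exists_cov htr htot hfin hinf _ hF fun x hx => hx.1
    have h1 : E c := by
      rw [hE c hc]
      intro d hd hcd hEd
      have h2 := hbF d ⟨hd, hEd⟩
      exact hcd.2.2 b hb ⟨h2, hcov.2.1⟩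
    exact hbF c ⟨hc, h1⟩ hcov.1
  · intro hF
    obtain ⟨b, c, hb, hc, hcov, hbF⟩ := exists_cov htr htot hfin hinf _ hF fun x hx => hx.1
    have hbb : le b b := (htot b b hb hb).elim id id
    have h1 : E b := by
      by_contra h
      exact hbF b ⟨hb, h⟩ hbb
    have h2 : E c := by
      by_contra h
      exact hbF c ⟨hc, h⟩ hcov.1
    exact (hE c hc).1 h2 b hb hcov h1

theorem exists_E : ∃ E : M → Prop,
    ∀ c ∈ L, (E c ↔ ∀ d, d ∈ L → Cov L le d c → ¬ E d) := by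
  classical
  let p : M → ℕ := fun x => {d | d ∈ L ∧ le d x}.ncard
  let E : M → Prop := (measure p).wf.fix (fun c ih => ∀ d, (h : p d < p c) → d ∈ L →
    Cov L le d c → ¬ ih d h)
  refine ⟨E, fun c hc => ?_⟩
  have h1 : E c = ∀ d, (h : p d < p c) → d ∈ L → Cov L le d c → ¬ E d :=
    (measure p).wf.fix_eq _ c
  rw [h1]
  constructor
  · intro h d hd hcov
    exact h d (ncard_lt htr htot hfin hd hc hcov.2.1) hd hcov
  · intro h d _ hd hcov
    exact h d hd hcov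

end comb

theorem taskSplit : TaskSplit := by
  classical
  intro N _ hZF hstd y y' r hAm hsub hy' htr htot hleast hcls
  have hZ : Zermelo N := hZF.toZermelo
  have hfi := isFinite_iff hZF hstd
  -- the initial segments
  have hpred : ∀ a, ∃ s : N, ∀ z, Mem z s ↔ Mem z y' ∧ App r z a := fun a =>
    sep hZ (fun z => App r z a) (D.app (T.const r) (T.var _) (T.const a)) y'
  have hyinf : {b | Mem b y'}.Infinite := fun h => hy' ((hfi y').2 h)
  -- find `l`
  obtain ⟨l, hl1, hl2, hl3⟩ : ∃ l : N, (∀ b, Mem b l → Mem b y') ∧ {b | Mem b l}.Infinite ∧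
      ∀ b, Mem b l → {c | Mem c l ∧ App r c b}.Finite := by
    let P : N → Prop := fun a => ∃ s, (∀ z, Mem z s ↔ Mem z y' ∧ App r z a) ∧ ¬ IsFinite s
    have hPD : D (fun v : Fin 1 → N => P (v 0)) := by
      refine D.ex (p := fun (v : Fin 1 → N) s => (∀ z, Mem z s ↔ Mem z y' ∧ App r z (v 0)) ∧
        ¬ IsFinite s) ?_
      refine D.and ?_ (D.isFinite (T.var _)).not
      refine D.all (p := fun (w : Fin 1 ⊕ Unit → N) z => (Mem z (w (Sum.inr ())) ↔ Mem z y' ∧
        App r z (w (Sum.inl 0)))) ?_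
      exact (D.mem (T.var _) (T.var _)).iff ((D.mem (T.var _) (T.const y')).and
        (D.app (T.const r) (T.var _) (T.var _)))
    have hP : ∀ a, P a ↔ {b | Mem b y' ∧ App r b a}.Infinite := by
      intro a
      constructor
      · rintro ⟨s, hs, hs'⟩ hfin
        apply hs'
        rw [hfi]
        refine hfin.subset ?_
        intro z hz
        exact (hs z).1 hz
      · intro hinf
        obtain ⟨s, hs⟩ := hpred a
        refine ⟨s, hs, fun hfin => hinf ?_⟩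
        rw [hfi] at hfin
        refine hfin.subset ?_
        intro z hz
        exact (hs z).2 hz
    by_cases hex : ∃ a, Mem a y' ∧ P a
    · obtain ⟨A, hA⟩ := sep hZ P hPD y'
      obtain ⟨a, ha, haP⟩ := hex
      obtain ⟨a0, ha0, hmin⟩ := hleast A (fun x hx => ((hA x).1 hx).1) ⟨a, (hA a).2 ⟨ha, haP⟩⟩
      obtain ⟨ha0y, ha0P⟩ := (hA a0).1 ha0
      obtain ⟨l, hl⟩ := sep hZ (fun b => ¬ App r a0 b)
        (D.app (T.const r) (T.const a0) (T.var _)).not y'
      refine ⟨l, fun b hb => ((hl b).1 hb).1, ?_, ?_⟩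
      · intro hfin
        refine (hP a0).1 ha0P ((hfin.union (hcls a0 ha0y)).subset ?_)
        rintro b ⟨hb1, hb2⟩
        by_cases h : App r a0 b
        · exact Or.inr ⟨hb1, h, hb2⟩
        · exact Or.inl ((hl b).2 ⟨hb1, h⟩)
      · intro b hb
        obtain ⟨hb1, hb2⟩ := (hl b).1 hb
        have hnP : ¬ P b := fun h => hb2 (hmin b ((hA b).2 ⟨hb1, h⟩))
        rw [hP, Set.not_infinite] at hnP
        exact hnP.subset fun c hc => ⟨((hl c).1 hc.1).1, hc.2⟩
    · refine ⟨y', fun b hb => hb, hyinf, fun b hb => ?_⟩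
      have hnP : ¬ P b := fun h => hex ⟨b, hb, h⟩
      rwa [hP, Set.not_infinite] at hnP
  -- the combinatorial part
  have htr' : ∀ a b c, a ∈ {b | Mem b l} → b ∈ {b | Mem b l} → c ∈ {b | Mem b l} →
      App r a b → App r b c → App r a c := fun a b c ha hb hc =>
    htr a b c (hl1 a ha) (hl1 b hb) (hl1 c hc)
  have htot' : ∀ a b, a ∈ {b | Mem b l} → b ∈ {b | Mem b l} → App r a b ∨ App r b a :=
    fun a b ha hb => htot a b (hl1 a ha) (hl1 b hb)
  have hfin' : ∀ b ∈ {b | Mem b l}, {c | c ∈ {b | Mem b l} ∧ App r c b}.Finite :=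
    fun b hb => hl3 b hb
  obtain ⟨E, hE⟩ := exists_E htr' htot' hfin'
  obtain ⟨hE1, hE2⟩ := core htr' htot' hfin' hl2 E hE
  -- `E` is a set of the model
  let Q : N → Prop := fun b => ∃ t, Mem b t ∧ ∀ c, Mem c l → App r c b →
    (Mem c t ↔ ∀ d, Mem d l → (App r d c ∧ ¬ App r c d ∧ ∀ e, Mem e l →
      ¬ (¬ App r e d ∧ ¬ App r c e)) → ¬ Mem d t)
  have hQD : D (fun v : Fin 1 → N => Q (v 0)) := by
    refine D.ex (p := fun (v : Fin 1 → N) t => Mem (v 0) t ∧ ∀ c, Mem c l → App r c (v 0) →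
      (Mem c t ↔ ∀ d, Mem d l → (App r d c ∧ ¬ App r c d ∧ ∀ e, Mem e l →
      ¬ (¬ App r e d ∧ ¬ App r c e)) → ¬ Mem d t)) ?_
    refine (D.mem (T.var _) (T.var _)).and ?_
    refine D.all (p := fun (w : Fin 1 ⊕ Unit → N) c => Mem c l → App r c (w (Sum.inl 0)) →
      (Mem c (w (Sum.inr ())) ↔ ∀ d, Mem d l → (App r d c ∧ ¬ App r c d ∧ ∀ e, Mem e l →
      ¬ (¬ App r e d ∧ ¬ App r c e)) → ¬ Mem d (w (Sum.inr ())))) ?_
    refine (D.mem (T.var _) (T.const l)).imp ((D.app (T.const r) (T.var _) (T.var _)).imp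
      ((D.mem (T.var _) (T.var _)).iff ?_))
    refine D.all (p := fun (w : (Fin 1 ⊕ Unit) ⊕ Unit → N) d => Mem d l →
      (App r d (w (Sum.inr ())) ∧ ¬ App r (w (Sum.inr ())) d ∧ ∀ e, Mem e l →
      ¬ (¬ App r e d ∧ ¬ App r (w (Sum.inr ())) e)) → ¬ Mem d (w (Sum.inl (Sum.inr ())))) ?_
    refine (D.mem (T.var _) (T.const l)).imp (D.imp (D.and (D.app (T.const r) (T.var _) (T.var _))
      (D.and (D.app (T.const r) (T.var _) (T.var _)).not ?_)) (D.mem (T.var _) (T.var _)).not)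
    refine D.all (p := fun (w : ((Fin 1 ⊕ Unit) ⊕ Unit) ⊕ Unit → N) e => Mem e l →
      ¬ (¬ App r e (w (Sum.inr ())) ∧ ¬ App r (w (Sum.inl (Sum.inr ()))) e)) ?_
    exact (D.mem (T.var _) (T.const l)).imp ((D.app (T.const r) (T.var _) (T.var _)).not.and
      (D.app (T.const r) (T.var _) (T.var _)).not).not
  have hQ : ∀ b, Mem b l → (Q b ↔ E b) := by
    intro b hb
    constructor
    · rintro ⟨t, hbt, ht⟩
      have key : ∀ n : ℕ, ∀ c, Mem c l → App r c b →
          {x | x ∈ {b | Mem b l} ∧ App r x c}.ncard = n → (Mem c t ↔ E c) := by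
        intro n
        induction n using Nat.strong_induction_on with
        | _ n ih =>
          intro c hc hcb hn
          rw [ht c hc hcb, hE c hc]
          refine forall_congr' fun d => ?_
          refine imp_congr_right fun hd => ?_
          show (Cov {b | Mem b l} (App r) d c → ¬ Mem d t) ↔ _
          refine imp_congr_right fun hcov => ?_
          rw [ih _ (by rw [← hn]; exact ncard_lt htr' htot' hfin' hd hc hcov.2.1) d hd
            (htr' d c b hd hc hb hcov.1 hcb) rfl]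
      exact (key _ b hb ((htot' b b hb hb).elim id id) rfl).1 hbt
    · intro hEb
      obtain ⟨t, ht⟩ := exists_of_finite hZ
        ((hl3 b hb).subset (show {c | (Mem c l ∧ App r c b) ∧ E c} ⊆ _ from fun c hc => hc.1))
      refine ⟨t, (ht b).2 ⟨⟨hb, (htot' b b hb hb).elim id id⟩, hEb⟩, ?_⟩
      intro c hc hcb
      rw [ht c]
      have h1 : c ∈ {c | (Mem c l ∧ App r c b) ∧ E c} ↔ E c :=
        ⟨fun h => h.2, fun h => ⟨⟨hc, hcb⟩, h⟩⟩
      rw [h1, hE c hc]
      refine forall_congr' fun d => ?_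
      refine imp_congr_right fun hd => ?_
      show (Cov {b | Mem b l} (App r) d c → ¬ E d) ↔ (Cov {b | Mem b l} (App r) d c → ¬ Mem d t)
      refine imp_congr_right fun hcov => ?_
      rw [ht d]
      have h2 : d ∈ {c | (Mem c l ∧ App r c b) ∧ E c} ↔ E d :=
        ⟨fun h => h.2, fun h => ⟨⟨hd, htr' d c b hd hc hb hcov.1 hcb⟩, h⟩⟩
      rw [h2]
  obtain ⟨z, hz⟩ := sep hZ Q hQD l
  have hz' : ∀ b, Mem b z ↔ Mem b l ∧ E b := by
    intro b
    rw [hz]
    exact ⟨fun h => ⟨h.1, (hQ b h.1).1 h.2⟩, fun h => ⟨h.1, (hQ b h.1).2 h.2⟩⟩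
  rcases hAm.2 z (fun x hx => hsub x (hl1 x ((hz' x).1 hx).1)) with h | h
  · rw [hfi] at h
    exact hE1 (h.subset fun b hb => (hz' b).2 hb)
  · obtain ⟨w, hw⟩ := sep hZ (fun x => ¬ Mem x z) (D.mem (T.var _) (T.const z)).not y
    have h3 := h w hw
    rw [hfi] at h3
    refine hE2 (h3.subset ?_)
    rintro b ⟨hb1, hb2⟩
    exact (hw b).2 ⟨hsub b (hl1 b hb1), fun h4 => hb2 ((hz' b).1 h4).2⟩

end Pool.Agent.H214R3.NasT
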